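import Mathlib

/-!
# The exact exponential growth rate of weighted tree automata exists

For every `ℕ`-weighted tree automaton with exponential growth, `growth(n)^(1/n)` converges to a
real number `ρ > 1`.
-/

namespace Pool.Agent.Results.MP_7772c6_lc.GrowthRateExists

open Finset Filter Topology

/-- Finite trees over the ranked alphabet `(A, rank)`. -/
inductive Tree (A : Type) (rank : A → ℕ) : Type
  | node (a : A) (ts : Fin (rank a) → Tree A rank) : Tree A rank

variable {A : Type} {rank : A → ℕ}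

/-- The size: the number of nodes. -/
def Tree.size : Tree A rank → ℕ
  | .node _ ts => 1 + ∑ i, (ts i).size

/-- An `ℕ`-weighted (bottom-up) tree automaton. -/
structure WTA (A : Type) (rank : A → ℕ) where
  Q : Type
  fin : Fintype Q
  μ : (a : A) → (Fin (rank a) → Q) → Q → ℕ
  final : Q → ℕ

namespace WTA

variable (M : WTA A rank)

instance : Fintype M.Q := M.fin

/-- A run on a tree assigns a state to every node: the state of the root and runs on the
subtrees of the root. -/
def Run : Tree A rank → Type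
  | .node a ts => M.Q × ((i : Fin (rank a)) → Run (ts i))

/-- The runs on a tree form a finite type. -/
@[instance_reducible]
noncomputable def runFintype : (t : Tree A rank) → Fintype (M.Run t)
  | .node _ ts => @instFintypeProd _ _ M.fin (@Pi.instFintype _ _ _ _ fun i => runFintype (ts i))

noncomputable instance (t : Tree A rank) : Fintype (M.Run t) := M.runFintype t

/-- The state of the root in a run. -/
def root : (t : Tree A rank) → M.Run t → M.Q
  | .node _ _ => fun r => r.1

/-- The product over all nodes of the weights of the transitions used by a run. -/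
def weight : (t : Tree A rank) → M.Run t → ℕ
  | .node a ts => fun r => M.μ a (fun i => M.root (ts i) (r.2 i)) r.1 *
      ∏ i, weight (ts i) (r.2 i)

/-- The value of a tree: the sum over all runs of the weight of the run times the final weight of
the root state. -/
noncomputable def value (t : Tree A rank) : ℕ :=
  ∑ r : M.Run t, M.weight t r * M.final (M.root t r)

/-- `growth n` is the maximal value of a tree of size at most `n`. -/
noncomputable def growth (n : ℕ) : ℕ := sSup {v | ∃ t : Tree A rank, t.size ≤ n ∧ M.value t = v}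

/-- Exponential growth: `2^(c₁ n) ≤ growth n ≤ 2^(c₂ n)` for large `n`, with `c₁, c₂ > 0`. -/
def ExponentialGrowth : Prop :=
  ∃ c₁ c₂ : ℝ, 0 < c₁ ∧ 0 < c₂ ∧ ∀ᶠ n : ℕ in atTop,
    (2 : ℝ) ^ (c₁ * n) ≤ M.growth n ∧ (M.growth n : ℝ) ≤ (2 : ℝ) ^ (c₂ * n)

/-! ### State vectors -/

open Classical in
/-- the total weight of the runs with root state `q` -/
noncomputable def V (t : Tree A rank) (q : M.Q) : ℕ :=
  ∑ r : M.Run t, if M.root t r = q then M.weight t r else 0

lemma value_eq (t : Tree A rank) : M.value t = ∑ q, M.final q * M.V t q := by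
  classical
  unfold value V
  simp only [Finset.mul_sum]
  rw [Finset.sum_comm]
  refine Finset.sum_congr rfl fun r _ => ?_
  rw [Finset.sum_eq_single (M.root t r)]
  · rw [if_pos rfl, mul_comm]
  · intro q _ hq
    rw [if_neg (Ne.symm hq), mul_zero]
  · intro h; exact absurd (Finset.mem_univ _) h

lemma V_node (a : A) (ts : Fin (rank a) → Tree A rank) (q : M.Q) :
    M.V (.node a ts) q = ∑ qs : Fin (rank a) → M.Q, M.μ a qs q * ∏ i, M.V (ts i) (qs i) := by
  classical
  have h1 : M.V (.node a ts) q = ∑ rs : (i : Fin (rank a)) → M.Run (ts i),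
      M.μ a (fun i => M.root (ts i) (rs i)) q * ∏ i, M.weight (ts i) (rs i) := by
    have h2 : M.V (.node a ts) q = ∑ r : M.Q × ((i : Fin (rank a)) → M.Run (ts i)),
        if r.1 = q then M.μ a (fun i => M.root (ts i) (r.2 i)) r.1 *
          ∏ i, M.weight (ts i) (r.2 i) else 0 := by
      unfold V
      refine Finset.sum_congr (Finset.ext fun x => ⟨fun _ => Finset.mem_univ _, fun _ => ?_⟩)
        fun _ _ => rfl
      exact Finset.mem_univ (α := M.Run (Tree.node a ts)) x
    rw [h2, Fintype.sum_prod_type, Finset.sum_eq_single q]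
    · simp
    · intro p _ hp
      simp [hp]
    · intro h; exact absurd (Finset.mem_univ _) h
  rw [h1]
  have h3 : ∀ qs : Fin (rank a) → M.Q, ∏ i, M.V (ts i) (qs i) =
      ∑ rs : (i : Fin (rank a)) → M.Run (ts i),
        if (fun i => M.root (ts i) (rs i)) = qs then ∏ i, M.weight (ts i) (rs i) else 0 := by
    intro qs
    unfold V
    rw [Finset.prod_univ_sum]
    rw [Fintype.piFinset_univ]
    refine Finset.sum_congr rfl fun rs _ => ?_
    rw [Finset.prod_ite_zero]
    congr 1
    simp [funext_iff]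
  simp only [h3, Finset.mul_sum]
  rw [Finset.sum_comm]
  refine Finset.sum_congr rfl fun rs _ => ?_
  rw [Finset.sum_eq_single (fun i => M.root (ts i) (rs i))]
  · simp
  · intro qs _ hqs
    rw [if_neg (Ne.symm hqs), mul_zero]
  · intro h; exact absurd (Finset.mem_univ _) h

/-! ### Contexts -/

/-- A context: an operation on trees which adds `c` nodes and acts linearly on the state
vectors, by the matrix `K`. -/
structure Ctx where
  F : Tree A rank → Tree A rank
  c : ℕ
  K : M.Q → M.Q → ℕ
  hsize : ∀ t, (F t).size = c + t.size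
  hV : ∀ t q, M.V (F t) q = ∑ p, K q p * M.V t p

variable {M}

open Classical in
/-- the trivial context -/
noncomputable def Ctx.id : Ctx M where
  F t := t
  c := 0
  K q p := if p = q then 1 else 0
  hsize t := by simp
  hV t q := by simp

/-- composition of contexts -/
def Ctx.comp (C D : Ctx M) : Ctx M where
  F t := C.F (D.F t)
  c := C.c + D.c
  K q p := ∑ s, C.K q s * D.K s p
  hsize t := by rw [C.hsize, D.hsize, add_assoc]
  hV t q := by
    rw [C.hV]
    simp only [D.hV, Finset.mul_sum, Finset.sum_mul]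
    rw [Finset.sum_comm]
    refine Finset.sum_congr rfl fun p _ => Finset.sum_congr rfl fun s _ => ?_
    ring

lemma Ctx.comp_ge (C D : Ctx M) (q s p : M.Q) : C.K q s * D.K s p ≤ (C.comp D).K q p :=
  Finset.single_le_sum (f := fun s => C.K q s * D.K s p) (fun _ _ => Nat.zero_le _)
    (Finset.mem_univ s)

lemma Ctx.V_ge (C : Ctx M) (t : Tree A rank) (q p : M.Q) : C.K q p * M.V t p ≤ M.V (C.F t) q := by
  rw [C.hV]
  exact Finset.single_le_sum (f := fun p => C.K q p * M.V t p) (fun _ _ => Nat.zero_le _)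
    (Finset.mem_univ p)

/-- iteration of contexts -/
noncomputable def Ctx.pow (C : Ctx M) : ℕ → Ctx M
  | 0 => Ctx.id
  | n + 1 => C.comp (C.pow n)

lemma Ctx.pow_c (C : Ctx M) (n : ℕ) : (C.pow n).c = n * C.c := by
  induction n with
  | zero => simp [Ctx.pow, Ctx.id]
  | succ n ih =>
    show C.c + (C.pow n).c = _
    rw [ih]; ring

lemma Ctx.pow_ge (C : Ctx M) (q : M.Q) (n : ℕ) : C.K q q ^ n ≤ (C.pow n).K q q := by
  induction n with
  | zero => simp [Ctx.pow, Ctx.id]
  | succ n ih =>
    rw [pow_succ']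
    exact (Nat.mul_le_mul_left _ ih).trans (C.comp_ge _ q q q)

open Classical in
/-- the elementary context obtained from a node by removing its `i`-th subtree -/
noncomputable def frame (M : WTA A rank) (a : A) (ts : Fin (rank a) → Tree A rank)
    (i : Fin (rank a)) : Ctx M where
  F t := .node a (Function.update ts i t)
  c := 1 + ∑ j ∈ Finset.univ.erase i, (ts j).size
  K q p := ∑ qs : Fin (rank a) → M.Q, if qs i = p then
    M.μ a qs q * ∏ j ∈ Finset.univ.erase i, M.V (ts j) (qs j) else 0
  hsize t := by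
    show 1 + ∑ j, (Function.update ts i t j).size = _
    rw [← Finset.add_sum_erase _ _ (Finset.mem_univ i), Function.update_self]
    have : ∑ j ∈ Finset.univ.erase i, (Function.update ts i t j).size =
        ∑ j ∈ Finset.univ.erase i, (ts j).size := by
      refine Finset.sum_congr rfl fun j hj => ?_
      rw [Function.update_of_ne (Finset.ne_of_mem_erase hj)]
    rw [this]
    ring
  hV t q := by
    rw [V_node]
    have h1 : ∀ qs : Fin (rank a) → M.Q, ∏ j, M.V (Function.update ts i t j) (qs j) =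
        M.V t (qs i) * ∏ j ∈ Finset.univ.erase i, M.V (ts j) (qs j) := by
      intro qs
      rw [← Finset.mul_prod_erase _ _ (Finset.mem_univ i), Function.update_self]
      congr 1
      refine Finset.prod_congr rfl fun j hj => ?_
      rw [Function.update_of_ne (Finset.ne_of_mem_erase hj)]
    simp only [h1, Finset.sum_mul]
    rw [Finset.sum_comm]
    refine Finset.sum_congr rfl fun qs _ => ?_
    rw [Finset.sum_eq_single (qs i)]
    · rw [if_pos rfl]; ring
    · intro p _ hp
      rw [if_neg (Ne.symm hp), zero_mul]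
    · intro h; exact absurd (Finset.mem_univ _) h

lemma size_pos (t : Tree A rank) : 1 ≤ t.size := by
  cases t with
  | node a ts => simp [Tree.size]

/-- descending to the heaviest subtree -/
lemma descend (M : WTA A rank) (r : ℕ) (hr : ∀ a, rank a ≤ r) (t : Tree A rank)
    (ht : 2 ≤ t.size) : ∃ (C : Ctx M) (t' : Tree A rank), t = C.F t' ∧ t'.size < t.size ∧
      t.size ≤ 1 + r * t'.size := by
  classical
  cases t with
  | node a ts =>
    have hne : 0 < rank a := by
      by_contra h
      have h0 : rank a = 0 := by omega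
      have : IsEmpty (Fin (rank a)) := by rw [h0]; infer_instance
      simp [Tree.size] at ht
    obtain ⟨i, -, hi⟩ := Finset.exists_max_image (Finset.univ : Finset (Fin (rank a)))
      (fun i => (ts i).size) ⟨⟨0, hne⟩, Finset.mem_univ _⟩
    refine ⟨frame M a ts i, ts i, ?_, ?_, ?_⟩
    · show _ = Tree.node a (Function.update ts i (ts i))
      rw [Function.update_eq_self]
    · have h1 := (frame M a ts i).hsize (ts i)
      have h2 : (frame M a ts i).F (ts i) = .node a ts := by
        show Tree.node a (Function.update ts i (ts i)) = _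
        rw [Function.update_eq_self]
      rw [h2] at h1
      have h3 : 1 ≤ (frame M a ts i).c := by simp [frame]
      omega
    · show 1 + ∑ j, (ts j).size ≤ _
      have h1 : ∑ j, (ts j).size ≤ ∑ _j : Fin (rank a), (ts i).size :=
        Finset.sum_le_sum fun j hj => hi j hj
      rw [Finset.sum_const, Finset.card_univ, Fintype.card_fin, smul_eq_mul] at h1
      have h2 := Nat.mul_le_mul_right (ts i).size (hr a)
      omega

/-- descending below a threshold -/
lemma descend_to (M : WTA A rank) (r : ℕ) (hr : ∀ a, rank a ≤ r) (s : ℕ) (hs : 1 ≤ s)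
    (t : Tree A rank) (ht : s < t.size) : ∃ (C : Ctx M) (t' : Tree A rank), t = C.F t' ∧
      t'.size ≤ s ∧ s ≤ r * t'.size := by
  induction h : t.size using Nat.strong_induction_on generalizing t with
  | _ n ih =>
    obtain ⟨C, t', h1, h2, h3⟩ := descend M r hr t (by omega)
    by_cases hle : t'.size ≤ s
    · exact ⟨C, t', h1, hle, by omega⟩
    · obtain ⟨D, t'', h4, h5, h6⟩ := ih t'.size (by omega) t' (by omega) rfl
      exact ⟨C.comp D, t'', by rw [h1, h4]; rfl, h5, h6⟩

/-- one checkpoint -/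
lemma checkpoint (M : WTA A rank) (r : ℕ) (hr : ∀ a, rank a ≤ r) (t : Tree A rank)
    (ht : 2 ≤ t.size) (q : M.Q) : ∃ (C : Ctx M) (t' : Tree A rank) (q' : M.Q), t = C.F t' ∧
      2 * t'.size ≤ t.size ∧ t.size ≤ 4 * r * t'.size ∧
      M.V t q ≤ Fintype.card M.Q * (C.K q q' * M.V t' q') := by
  obtain ⟨C, t', h1, h2, h3⟩ := descend_to M r hr (t.size / 2) (by omega) t (by omega)
  obtain ⟨q', -, hq'⟩ := Finset.exists_max_image (Finset.univ : Finset M.Q)
    (fun p => C.K q p * M.V t' p) ⟨q, Finset.mem_univ _⟩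
  refine ⟨C, t', q', h1, by omega, ?_, ?_⟩
  · have : t.size ≤ 4 * (t.size / 2) := by omega
    calc t.size ≤ 4 * (t.size / 2) := this
      _ ≤ 4 * (r * t'.size) := Nat.mul_le_mul_left _ h3
      _ = 4 * r * t'.size := by ring
  · conv_lhs => rw [h1]
    rw [C.hV]
    calc ∑ p, C.K q p * M.V t' p ≤ ∑ _p : M.Q, C.K q q' * M.V t' q' :=
          Finset.sum_le_sum fun p hp => hq' p hp
      _ = Fintype.card M.Q * (C.K q q' * M.V t' q') := by
          rw [Finset.sum_const, Finset.card_univ, smul_eq_mul]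

/-- a chain of checkpoints -/
lemma chain (M : WTA A rank) (r : ℕ) (hr1 : 1 ≤ r) (hr : ∀ a, rank a ≤ r) (m : ℕ) :
    ∀ (t : Tree A rank) (q : M.Q), 2 * (4 * r) ^ m ≤ t.size →
    ∃ (T : ℕ → Tree A rank) (C : ℕ → Ctx M) (S : ℕ → M.Q), T 0 = t ∧ S 0 = q ∧
      ∀ i < m, T i = (C i).F (T (i + 1)) ∧ 2 * (T (i + 1)).size ≤ (T i).size ∧
        (T i).size ≤ 4 * r * (T (i + 1)).size ∧
        M.V (T i) (S i) ≤ Fintype.card M.Q * ((C i).K (S i) (S (i + 1)) *
          M.V (T (i + 1)) (S (i + 1))) := by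
  induction m with
  | zero =>
    intro t q _
    exact ⟨fun _ => t, fun _ => Ctx.id, fun _ => q, rfl, rfl, fun i hi => absurd hi (by omega)⟩
  | succ m ih =>
    intro t q ht
    have h2 : 2 ≤ t.size := by
      have : 1 ≤ (4 * r) ^ (m + 1) := Nat.one_le_pow _ _ (by omega)
      omega
    obtain ⟨C₀, t', q', h3, h4, h5, h6⟩ := checkpoint M r hr t h2 q
    have h7 : 2 * (4 * r) ^ m ≤ t'.size := by
      rw [pow_succ] at ht
      have h8 : (4 * r) * (2 * (4 * r) ^ m) ≤ (4 * r) * t'.size := by
        calc (4 * r) * (2 * (4 * r) ^ m) = 2 * ((4 * r) ^ m * (4 * r)) := by ring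
          _ ≤ t.size := ht
          _ ≤ 4 * r * t'.size := h5
      exact Nat.le_of_mul_le_mul_left h8 (by omega)
    obtain ⟨T, C, S, h8, h9, h10⟩ := ih t' q' h7
    refine ⟨fun i => Nat.casesOn i t T, fun i => Nat.casesOn i C₀ C,
      fun i => Nat.casesOn i q S, rfl, rfl, ?_⟩
    intro i hi
    cases i with
    | zero =>
      simp only
      rw [h8, h9]
      exact ⟨h3, h4, h5, h6⟩
    | succ i => exact h10 i (by omega)

/-- composition of consecutive contexts of a chain -/
noncomputable def seg (C : ℕ → Ctx M) (i : ℕ) : ℕ → Ctx M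
  | 0 => Ctx.id
  | k + 1 => (seg C i k).comp (C (i + k))

lemma id_F (t : Tree A rank) : (Ctx.id : Ctx M).F t = t := rfl

lemma seg_spec {m : ℕ} {T : ℕ → Tree A rank} {C : ℕ → Ctx M} {S : ℕ → M.Q}
    (h : ∀ i < m, T i = (C i).F (T (i + 1)) ∧ 2 * (T (i + 1)).size ≤ (T i).size ∧
        M.V (T i) (S i) ≤ Fintype.card M.Q * ((C i).K (S i) (S (i + 1)) *
          M.V (T (i + 1)) (S (i + 1)))) (i k : ℕ) (hk : i + k ≤ m) :
    T i = (seg C i k).F (T (i + k)) ∧
      M.V (T i) (S i) ≤ Fintype.card M.Q ^ k * ((seg C i k).K (S i) (S (i + k)) *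
        M.V (T (i + k)) (S (i + k))) := by
  induction k with
  | zero => exact ⟨rfl, by simp [seg, Ctx.id]⟩
  | succ k ih =>
    obtain ⟨h1, h2⟩ := ih (by omega)
    obtain ⟨h3, h4, h5⟩ := h (i + k) (by omega)
    refine ⟨?_, ?_⟩
    · show T i = (seg C i k).F ((C (i + k)).F (T (i + k + 1)))
      rw [← h3]
      exact h1
    · refine h2.trans ?_
      calc Fintype.card M.Q ^ k * ((seg C i k).K (S i) (S (i + k)) *
            M.V (T (i + k)) (S (i + k)))
          ≤ Fintype.card M.Q ^ k * ((seg C i k).K (S i) (S (i + k)) *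
            (Fintype.card M.Q * ((C (i + k)).K (S (i + k)) (S (i + k + 1)) *
              M.V (T (i + k + 1)) (S (i + k + 1))))) := by gcongr
        _ = Fintype.card M.Q ^ (k + 1) * (((seg C i k).K (S i) (S (i + k)) *
            (C (i + k)).K (S (i + k)) (S (i + k + 1))) *
              M.V (T (i + k + 1)) (S (i + k + 1))) := by ring
        _ ≤ Fintype.card M.Q ^ (k + 1) * ((seg C i (k + 1)).K (S i) (S (i + (k + 1))) *
              M.V (T (i + (k + 1))) (S (i + (k + 1)))) := by
            apply Nat.mul_le_mul_left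
            apply Nat.mul_le_mul_right
            exact Ctx.comp_ge _ _ _ _ _

lemma size_mono {m : ℕ} {T : ℕ → Tree A rank}
    (h : ∀ i < m, 2 * (T (i + 1)).size ≤ (T i).size) (i k : ℕ) (hk : i + k ≤ m) :
    (T (i + k)).size ≤ (T i).size := by
  induction k with
  | zero => exact le_rfl
  | succ k ih =>
    have h1 := ih (by omega)
    have h2 := h (i + k) (by omega)
    have h3 : (T (i + (k + 1))).size = (T (i + k + 1)).size := rfl
    omega

lemma size_lower {m : ℕ} {T : ℕ → Tree A rank} (r : ℕ)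
    (h : ∀ i < m, (T i).size ≤ 4 * r * (T (i + 1)).size) (i : ℕ) (hk : i ≤ m) :
    (T 0).size ≤ (4 * r) ^ i * (T i).size := by
  induction i with
  | zero => simp
  | succ i ih =>
    have h1 := ih (by omega)
    have h2 := h i (by omega)
    calc (T 0).size ≤ (4 * r) ^ i * (T i).size := h1
      _ ≤ (4 * r) ^ i * (4 * r * (T (i + 1)).size) := Nat.mul_le_mul_left _ h2
      _ = (4 * r) ^ (i + 1) * (T (i + 1)).size := by ring

/-- **Key lemma**: a large tree of positive value contains a large context which can be pumped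
and carries a proportional part of the value. -/
lemma key (M : WTA A rank) (r : ℕ) (hr1 : 1 ≤ r) (hr : ∀ a, rank a ≤ r) (t : Tree A rank)
    (ht : 2 * (4 * r) ^ Fintype.card M.Q ≤ t.size) (hpos : 0 < M.value t) :
    ∃ (O C : Ctx M) (t' : Tree A rank) (q s : M.Q),
      t = O.F (C.F t') ∧ 1 ≤ M.final s * O.K s q ∧ 1 ≤ M.V t' q ∧
      M.value t ≤ Fintype.card M.Q ^ (1 + Fintype.card M.Q) * (C.K q q * M.value (O.F t')) ∧
      t.size ≤ 2 * (4 * r) ^ Fintype.card M.Q * C.c ∧
      t.size ≤ (4 * r) ^ Fintype.card M.Q * (O.F t').size := by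
  classical
  set m := Fintype.card M.Q with hm
  -- choose the root state
  have hQ : Nonempty M.Q := by
    by_contra hne
    rw [not_nonempty_iff] at hne
    rw [value_eq] at hpos
    simp at hpos
  obtain ⟨s, -, hs⟩ := Finset.exists_max_image (Finset.univ : Finset M.Q)
    (fun p => M.final p * M.V t p) Finset.univ_nonempty
  have hval : M.value t ≤ m * (M.final s * M.V t s) := by
    rw [value_eq]
    calc ∑ p, M.final p * M.V t p ≤ ∑ _p : M.Q, M.final s * M.V t s :=
          Finset.sum_le_sum fun p hp => hs p hp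
      _ = m * (M.final s * M.V t s) := by
          rw [Finset.sum_const, Finset.card_univ, smul_eq_mul]
  obtain ⟨T, C, S, hT0, hS0, hch⟩ := chain M r hr1 hr m t s ht
  -- a repeated state
  obtain ⟨i, j, hij, hSij⟩ : ∃ i j : Fin (m + 1), i < j ∧ S i = S j := by
    obtain ⟨x, y, hxy, hS⟩ := Fintype.exists_ne_map_eq_of_card_lt
      (fun i : Fin (m + 1) => S i) (by simp [← hm])
    rcases lt_or_gt_of_ne hxy with h | h
    · exact ⟨x, y, h, hS⟩
    · exact ⟨y, x, h, hS.symm⟩
  obtain ⟨k, hk⟩ : ∃ k, (j : ℕ) = i + k := ⟨j - i, by have := Fin.lt_def.mp hij; omega⟩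
  have hk0 : 1 ≤ k := by have := Fin.lt_def.mp hij; omega
  have hjm : (i : ℕ) + k ≤ m := by have := j.2; omega
  have hch' : ∀ i < m, T i = (C i).F (T (i + 1)) ∧ 2 * (T (i + 1)).size ≤ (T i).size ∧
        M.V (T i) (S i) ≤ Fintype.card M.Q * ((C i).K (S i) (S (i + 1)) *
          M.V (T (i + 1)) (S (i + 1))) := fun i hi =>
    ⟨(hch i hi).1, (hch i hi).2.1, (hch i hi).2.2.2⟩
  obtain ⟨e1, e2⟩ := seg_spec hch' 0 i (by omega)
  obtain ⟨e3, e4⟩ := seg_spec hch' i k hjm
  rw [zero_add] at e1 e2
  have hSk : S (i + k) = S i := by rw [hSij, hk]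
  rw [hSk] at e4
  rw [hT0, hS0] at e2
  rw [hT0] at e1
  set O := seg C 0 i with hO
  set D := seg C i k with hD
  set t' := T (i + k) with ht'
  set q := S i with hq
  have hmain : M.value t ≤ m ^ (1 + (i + k)) * ((M.final s * O.K s q) *
      (D.K q q * M.V t' q)) := by
    calc M.value t ≤ m * (M.final s * M.V t s) := hval
      _ ≤ m * (M.final s * (m ^ (i : ℕ) * (O.K s q * (m ^ k * (D.K q q * M.V t' q))))) := by
          apply Nat.mul_le_mul_left
          apply Nat.mul_le_mul_left
          refine e2.trans ?_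
          apply Nat.mul_le_mul_left
          apply Nat.mul_le_mul_left
          exact e4
      _ = m ^ (1 + (i + k)) * ((M.final s * O.K s q) * (D.K q q * M.V t' q)) := by
          rw [pow_add, pow_add, pow_one]; ring
  have hprodpos : 0 < m ^ (1 + (i + k)) * ((M.final s * O.K s q) * (D.K q q * M.V t' q)) :=
    lt_of_lt_of_le hpos hmain
  have hm1 : 1 ≤ m := Fintype.card_pos
  have hp1 : 0 < (M.final s * O.K s q) * (D.K q q * M.V t' q) :=
    Nat.pos_of_mul_pos_left hprodpos
  refine ⟨O, D, t', q, s, ?_, ?_, ?_, ?_, ?_, ?_⟩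
  · rw [← e3]; exact e1
  · exact Nat.pos_of_mul_pos_right hp1
  · exact Nat.pos_of_mul_pos_left (Nat.pos_of_mul_pos_left hp1)
  · refine hmain.trans ?_
    apply Nat.mul_le_mul (Nat.pow_le_pow_right hm1 (by omega))
    have h1 : (M.final s * O.K s q) * M.V t' q ≤ M.value (O.F t') := by
      rw [value_eq]
      refine le_trans ?_ (Finset.single_le_sum (f := fun p => M.final p * M.V (O.F t') p)
        (fun _ _ => Nat.zero_le _) (Finset.mem_univ s))
      rw [mul_assoc]
      exact Nat.mul_le_mul_left _ (O.V_ge t' s q)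
    calc (M.final s * O.K s q) * (D.K q q * M.V t' q)
        = D.K q q * ((M.final s * O.K s q) * M.V t' q) := by ring
      _ ≤ D.K q q * M.value (O.F t') := Nat.mul_le_mul_left _ h1
  · -- the size of `D`
    have f1 := size_lower r (fun i hi => (hch i hi).2.2.1) i (by omega)
    have f2 : 2 * (T (i + k)).size ≤ (T i).size := by
      obtain ⟨k', rfl⟩ : ∃ k', k = k' + 1 := ⟨k - 1, by omega⟩
      have g1 := size_mono (fun i hi => (hch i hi).2.1) i k' (by omega)
      have g2 := (hch (i + k') (by omega)).2.1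
      exact g2.trans g1
    have f3 : (T i).size = D.c + (T (i + k)).size := by
      conv_lhs => rw [e3]
      exact D.hsize _
    rw [hT0] at f1
    have f4 : (T i).size ≤ 2 * D.c := by omega
    calc t.size ≤ (4 * r) ^ (i : ℕ) * (T i).size := f1
      _ ≤ (4 * r) ^ m * (2 * D.c) :=
          Nat.mul_le_mul (Nat.pow_le_pow_right (by omega) (by omega)) f4
      _ = 2 * (4 * r) ^ m * D.c := by ring
  · have f1 := size_lower r (fun i hi => (hch i hi).2.2.1) (i + k) (by omega)
    rw [hT0] at f1
    calc t.size ≤ (4 * r) ^ (i + k : ℕ) * t'.size := f1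
      _ ≤ (4 * r) ^ m * (O.F t').size := by
          apply Nat.mul_le_mul (Nat.pow_le_pow_right (by omega) hjm)
          rw [O.hsize]; omega

/-! ### Bounds for the growth function -/

variable (M)

lemma V_le [Fintype A] (t : Tree A rank) (q : M.Q) :
    M.V t q ≤ (1 + ∑ a, ∑ q, ∑ qs : Fin (rank a) → M.Q, M.μ a qs q) ^ t.size := by
  classical
  set W := 1 + ∑ a, ∑ q, ∑ qs : Fin (rank a) → M.Q, M.μ a qs q with hW
  induction t generalizing q with
  | node a ts ih =>
    rw [V_node]
    have h1 : ∀ qs : Fin (rank a) → M.Q, ∏ i, M.V (ts i) (qs i) ≤ W ^ ∑ i, (ts i).size := by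
      intro qs
      rw [← Finset.prod_pow_eq_pow_sum]
      exact Finset.prod_le_prod' fun i _ => ih i (qs i)
    have h2 : ∑ qs : Fin (rank a) → M.Q, M.μ a qs q ≤ W := by
      have e1 : ∑ qs : Fin (rank a) → M.Q, M.μ a qs q ≤
          ∑ q, ∑ qs : Fin (rank a) → M.Q, M.μ a qs q :=
        Finset.single_le_sum (f := fun q => ∑ qs : Fin (rank a) → M.Q, M.μ a qs q)
          (fun _ _ => Nat.zero_le _) (Finset.mem_univ q)
      have e2 : ∑ q, ∑ qs : Fin (rank a) → M.Q, M.μ a qs q ≤
          ∑ a, ∑ q, ∑ qs : Fin (rank a) → M.Q, M.μ a qs q :=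
        Finset.single_le_sum (f := fun a => ∑ q, ∑ qs : Fin (rank a) → M.Q, M.μ a qs q)
          (fun _ _ => Nat.zero_le _) (Finset.mem_univ a)
      omega
    calc ∑ qs : Fin (rank a) → M.Q, M.μ a qs q * ∏ i, M.V (ts i) (qs i)
        ≤ ∑ qs : Fin (rank a) → M.Q, M.μ a qs q * W ^ ∑ i, (ts i).size :=
          Finset.sum_le_sum fun qs _ => Nat.mul_le_mul_left _ (h1 qs)
      _ = (∑ qs : Fin (rank a) → M.Q, M.μ a qs q) * W ^ ∑ i, (ts i).size := by
          rw [Finset.sum_mul]
      _ ≤ W * W ^ ∑ i, (ts i).size := Nat.mul_le_mul_right _ h2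
      _ = W ^ (Tree.node a ts).size := by
          rw [Tree.size, pow_add, pow_one]

lemma bdd [Finite A] (n : ℕ) :
    BddAbove {v | ∃ t : Tree A rank, t.size ≤ n ∧ M.value t = v} := by
  cases nonempty_fintype A
  refine ⟨∑ q, M.final q *
    (1 + ∑ a, ∑ q, ∑ qs : Fin (rank a) → M.Q, M.μ a qs q) ^ n, ?_⟩
  rintro v ⟨t, ht, rfl⟩
  rw [value_eq]
  refine Finset.sum_le_sum fun q _ => Nat.mul_le_mul_left _ ((M.V_le t q).trans ?_)
  exact Nat.pow_le_pow_right (by omega) ht

lemma value_le_growth [Finite A] {n : ℕ} (t : Tree A rank) (ht : t.size ≤ n) :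
    M.value t ≤ M.growth n := le_csSup (M.bdd n) ⟨t, ht, rfl⟩

lemma exists_growth [Finite A] {n : ℕ} (h : 0 < M.growth n) :
    ∃ t : Tree A rank, t.size ≤ n ∧ M.value t = M.growth n := by
  have hne : {v | ∃ t : Tree A rank, t.size ≤ n ∧ M.value t = v}.Nonempty := by
    by_contra hne
    rw [Set.not_nonempty_iff_eq_empty] at hne
    rw [growth, hne] at h
    simp at h
  exact Nat.sSup_mem hne (M.bdd n)

/-- the normalised logarithm of the growth function -/
noncomputable def ell (n : ℕ) : ℝ := Real.log (M.growth n) / n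

/-- pumping gives a lower bound for the growth -/
lemma growth_pump [Finite A] (O C : Ctx M) (t' : Tree A rank) (q s : M.Q)
    (h1 : 1 ≤ M.final s * O.K s q) (h2 : 1 ≤ M.V t' q) (k : ℕ) :
    C.K q q ^ k ≤ M.growth (O.c + (k * C.c + t'.size)) := by
  have hsz : (O.F ((C.pow k).F t')).size ≤ O.c + (k * C.c + t'.size) := by
    rw [O.hsize, (C.pow k).hsize, C.pow_c]
  refine le_trans ?_ (M.value_le_growth _ hsz)
  rw [value_eq]
  refine le_trans ?_ (Finset.single_le_sum (f := fun p => M.final p *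
    M.V (O.F ((C.pow k).F t')) p) (fun _ _ => Nat.zero_le _) (Finset.mem_univ s))
  have e1 := O.V_ge ((C.pow k).F t') s q
  have e2 := (C.pow k).V_ge t' q q
  have e3 := C.pow_ge q k
  calc C.K q q ^ k = 1 * (C.K q q ^ k * 1) := by ring
    _ ≤ (M.final s * O.K s q) * ((C.pow k).K q q * M.V t' q) :=
        Nat.mul_le_mul h1 (Nat.mul_le_mul e3 h2)
    _ ≤ (M.final s * O.K s q) * M.V ((C.pow k).F t') q := Nat.mul_le_mul_left _ e2
    _ = M.final s * (O.K s q * M.V ((C.pow k).F t') q) := by ring
    _ ≤ M.final s * M.V (O.F ((C.pow k).F t')) s := Nat.mul_le_mul_left _ e1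

lemma exists_rank_bound [Finite A] (rank : A → ℕ) : ∃ r, 1 ≤ r ∧ ∀ a, rank a ≤ r := by
  obtain ⟨b, hb⟩ := (Set.finite_range rank).bddAbove
  exact ⟨b + 1, by omega, fun a => (hb ⟨a, rfl⟩).trans (by omega)⟩

/-- The main estimate. -/
lemma lower [Finite A] (L : ℝ) (hL : 0 < L)
    (hup : ∀ ε > 0, ∀ᶠ n in atTop, M.ell n ≤ L + ε)
    (hlow : ∀ ε > 0, ∃ᶠ n in atTop, L - ε < M.ell n) (η : ℝ) (hη : 0 < η) :
    ∀ᶠ N : ℕ in atTop, L - η ≤ M.ell N := by
  classical
  obtain ⟨r, hr1, hr⟩ := exists_rank_bound rank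
  set m := Fintype.card M.Q with hm
  set B : ℝ := 2 * (4 * r) ^ m with hB
  have hr1' : (1 : ℝ) ≤ r := by exact_mod_cast hr1
  have hBpos : 0 < B := by positivity
  set K : ℝ := Real.log ((m : ℝ) ^ (1 + m)) with hK
  set η' : ℝ := min (η / 2) (L / 2) with hη'
  have hη'pos : 0 < η' := lt_min (by linarith) (by linarith)
  have hη'1 : η' ≤ η / 2 := min_le_left _ _
  have hη'2 : η' ≤ L / 2 := min_le_right _ _
  have hB2 : 2 ≤ B := by
    have : (1 : ℝ) ≤ (4 * r) ^ m := one_le_pow₀ (by linarith)
    linarith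
  set ε : ℝ := η' / (3 * B) with hε
  have hεpos : 0 < ε := by positivity
  have hεB : 3 * ε * B = η' := by rw [hε]; field_simp
  have hεL : ε < L := by nlinarith
  obtain ⟨N₁, hN₁⟩ := Filter.eventually_atTop.mp (hup ε hεpos)
  -- the size threshold
  obtain ⟨M₀, hM₀⟩ : ∃ M₀ : ℕ, 2 * (4 * r) ^ m ≤ M₀ ∧ (4 * r) ^ m * (N₁ + 1) ≤ M₀ ∧ K ≤ ε * M₀ := by
    obtain ⟨k, hk⟩ := exists_nat_ge (K / ε)
    refine ⟨2 * (4 * r) ^ m + (4 * r) ^ m * (N₁ + 1) + k, by omega, by omega, ?_⟩
    rw [div_le_iff₀ hεpos] at hk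
    push_cast
    have : 0 ≤ ε * (2 * (4 * r) ^ m + (4 * r) ^ m * (N₁ + 1)) := by positivity
    nlinarith
  -- choose `n`
  obtain ⟨k₀, hk₀⟩ := exists_nat_gt (Real.log (M.growth M₀) / (L - ε))
  obtain ⟨n, hn1, hn2⟩ := ((hlow ε hεpos).and_eventually
    (Filter.eventually_ge_atTop (k₀ + 1))).exists
  have hnpos : (0 : ℝ) < n := by
    have : (1 : ℝ) ≤ n := by exact_mod_cast (by omega : 1 ≤ n)
    linarith
  have hgn : (L - ε) * n < Real.log (M.growth n) := by
    rw [ell, lt_div_iff₀ hnpos] at hn1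
    exact hn1
  have hgpos : 0 < M.growth n := by
    rw [Nat.pos_iff_ne_zero]
    intro h0
    rw [h0] at hgn
    simp only [Nat.cast_zero, Real.log_zero] at hgn
    have : 0 < (L - ε) * n := mul_pos (by linarith) hnpos
    linarith
  obtain ⟨t, htn, htv⟩ := M.exists_growth hgpos
  have hts : M₀ < t.size := by
    by_contra hle
    push Not at hle
    have h1 := M.value_le_growth t hle
    rw [htv] at h1
    have h2 : Real.log (M.growth n) ≤ Real.log (M.growth M₀) :=
      Real.log_le_log (by exact_mod_cast hgpos) (by exact_mod_cast h1)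
    rw [div_lt_iff₀ (by linarith)] at hk₀
    have h3 : (k₀ : ℝ) ≤ n := by exact_mod_cast (by omega : k₀ ≤ n)
    have h4 : (k₀ : ℝ) * (L - ε) ≤ n * (L - ε) :=
      mul_le_mul_of_nonneg_right h3 (by linarith)
    linarith
  have hvpos : 0 < M.value t := by rw [htv]; exact hgpos
  obtain ⟨O, C, t', q, s, e1, e2, e3, e4, e5, e6⟩ := key M r hr1 hr t (by rw [← hm]; omega) hvpos
  rw [← hm] at e4 e5 e6
  have hsize : t.size = (O.F t').size + C.c := by
    conv_lhs => rw [e1]
    rw [O.hsize, C.hsize, O.hsize]; ring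
  have hv'pos : 0 < C.K q q * M.value (O.F t') := by
    by_contra h0
    have h0' : C.K q q * M.value (O.F t') = 0 := by omega
    rw [h0'] at e4
    omega
  have hwpos : 0 < C.K q q := Nat.pos_of_mul_pos_right hv'pos
  have hv''pos : 0 < M.value (O.F t') := Nat.pos_of_mul_pos_left hv'pos
  have hmpos : 0 < m := by
    rw [Nat.pos_iff_ne_zero]
    intro h0
    rw [h0] at e4
    simp at e4
    omega
  have hpw : 0 < (4 * r) ^ m := by positivity
  have hbig : N₁ + 1 ≤ (O.F t').size := by
    have h1 : (4 * r) ^ m * (N₁ + 1) ≤ (4 * r) ^ m * (O.F t').size :=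
      (hM₀.2.1.trans hts.le).trans e6
    exact Nat.le_of_mul_le_mul_left h1 hpw
  have hlog1 : Real.log (M.value (O.F t')) ≤ (L + ε) * (O.F t').size := by
    have h1 := hN₁ (O.F t').size (by omega)
    have h2 : (0 : ℝ) < (O.F t').size := by exact_mod_cast (by omega : 0 < (O.F t').size)
    rw [ell, div_le_iff₀ h2] at h1
    refine le_trans (Real.log_le_log (by exact_mod_cast hv''pos) ?_) h1
    exact_mod_cast M.value_le_growth (O.F t') le_rfl
  have hlog2 : Real.log (M.value t) ≤ K + (Real.log (C.K q q) + Real.log (M.value (O.F t'))) := by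
    have h1 : (M.value t : ℝ) ≤ (m : ℝ) ^ (1 + m) * ((C.K q q : ℝ) * (M.value (O.F t') : ℝ)) := by
      exact_mod_cast e4
    have h2 := Real.log_le_log (by exact_mod_cast hvpos) h1
    rw [Real.log_mul (by positivity) (by positivity),
      Real.log_mul (by positivity) (by positivity)] at h2
    exact h2
  have hsR : (t.size : ℝ) = (O.F t').size + C.c := by exact_mod_cast hsize
  have hcB : (t.size : ℝ) ≤ B * C.c := by
    rw [hB]
    exact_mod_cast e5
  have hnt : (t.size : ℝ) ≤ n := by exact_mod_cast htn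
  have hlogw : (L - η') * C.c ≤ Real.log (C.K q q) := by
    rw [htv] at hlog2
    have h1 : (L - ε) * t.size ≤ (L - ε) * n := mul_le_mul_of_nonneg_left hnt (by linarith)
    have h2 : K ≤ ε * t.size := by
      refine hM₀.2.2.trans (mul_le_mul_of_nonneg_left ?_ hεpos.le)
      exact_mod_cast hts.le
    have h3 : 3 * ε * t.size ≤ η' * C.c := by
      have : 3 * ε * t.size ≤ 3 * ε * (B * C.c) := mul_le_mul_of_nonneg_left hcB (by positivity)
      calc 3 * ε * t.size ≤ 3 * ε * (B * C.c) := this
        _ = (3 * ε * B) * C.c := by ring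
        _ = η' * C.c := by rw [hεB]
    have h4 : 0 ≤ ε * C.c := by positivity
    have h5 : ((O.F t').size : ℝ) = t.size - C.c := by linarith
    rw [h5] at hlog1
    nlinarith
  have hcpos : 0 < C.c := by
    rw [Nat.pos_iff_ne_zero]
    intro h0
    rw [h0] at e5
    omega
  have hcR : (0 : ℝ) < C.c := by exact_mod_cast hcpos
  have hLη : 0 < L - η' := by linarith
  -- pumping
  have hpump : ∀ N : ℕ, t.size ≤ N → (L - η') * ((N : ℝ) - t.size - C.c) ≤
      Real.log (M.growth N) := by
    intro N hN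
    set k := (N - t.size) / C.c with hk
    have h1 := M.growth_pump O C t' q s e2 e3 k
    have h2 : O.c + (k * C.c + t'.size) ≤ N := by
      have h3 : k * C.c ≤ N - t.size := Nat.div_mul_le_self _ _
      have h4 : t.size = O.c + (C.c + t'.size) := by
        conv_lhs => rw [e1]
        rw [O.hsize, C.hsize]
      omega
    have hmono : M.growth (O.c + (k * C.c + t'.size)) ≤ M.growth N := by
      apply csSup_le_csSup' (M.bdd N)
      rintro v ⟨u, hu, rfl⟩
      exact ⟨u, hu.trans h2, rfl⟩
    have h3 : (C.K q q : ℝ) ^ k ≤ M.growth N := by exact_mod_cast h1.trans hmono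
    have h4 : (k : ℝ) * Real.log (C.K q q) ≤ Real.log (M.growth N) := by
      rw [← Real.log_pow]
      exact Real.log_le_log (by positivity) h3
    have h5 : (N : ℝ) - t.size - C.c ≤ k * C.c := by
      have h6 : N - t.size < (k + 1) * C.c := by
        rw [hk]
        have h7 := Nat.div_add_mod (N - t.size) C.c
        have h8 := Nat.mod_lt (N - t.size) hcpos
        nlinarith
      have h7 : ((N - t.size : ℕ) : ℝ) < (k + 1) * C.c := by exact_mod_cast h6
      rw [Nat.cast_sub hN] at h7
      linarith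
    have h6 : (k : ℝ) * ((L - η') * C.c) ≤ k * Real.log (C.K q q) :=
      mul_le_mul_of_nonneg_left hlogw (Nat.cast_nonneg k)
    have h7 : (L - η') * ((N : ℝ) - t.size - C.c) ≤ (L - η') * (k * C.c) :=
      mul_le_mul_of_nonneg_left h5 hLη.le
    nlinarith
  -- conclusion
  obtain ⟨N₂, hN₂⟩ := exists_nat_ge ((L - η') * (t.size + C.c) / (η - η'))
  filter_upwards [Filter.eventually_ge_atTop (N₂ + t.size + 1)] with N hN
  have hNpos : (0 : ℝ) < N := by exact_mod_cast (by omega : 0 < N)
  rw [ell, le_div_iff₀ hNpos]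
  refine le_trans ?_ (hpump N (by omega))
  rw [div_le_iff₀ (by linarith)] at hN₂
  have hNN : (N₂ : ℝ) ≤ N := by exact_mod_cast (by omega : N₂ ≤ N)
  have : (N₂ : ℝ) * (η - η') ≤ N * (η - η') := mul_le_mul_of_nonneg_right hNN (by linarith)
  nlinarith

end WTA

/-- **Main theorem.** Let `(A, rank)` be a finite ranked alphabet and `M` an `ℕ`-weighted tree
automaton with exponential growth. Then there is a real `ρ > 1` with
`growth(n) = ρ^(n + o(n))`, i.e. `log (growth n) / n → log ρ`, and `growth(n)^(1/n) → ρ`. -/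
theorem result (A : Type) [Finite A] (rank : A → ℕ) (M : WTA A rank)
    (h : M.ExponentialGrowth) : ∃ ρ : ℝ, 1 < ρ ∧
      Tendsto (fun n : ℕ => Real.log (M.growth n) / n) atTop (𝓝 (Real.log ρ)) ∧
      Tendsto (fun n : ℕ => (M.growth n : ℝ) ^ (1 / (n : ℝ))) atTop (𝓝 ρ) := by
  obtain ⟨c₁, c₂, hc₁, hc₂, hexp⟩ := h
  have hlog2 : 0 < Real.log 2 := Real.log_pos one_lt_two
  have hb : ∀ᶠ n : ℕ in atTop, 0 < (M.growth n : ℝ) ∧ c₁ * Real.log 2 ≤ M.ell n ∧
      M.ell n ≤ c₂ * Real.log 2 := by
    filter_upwards [hexp, Filter.eventually_ge_atTop 1] with n hn hn1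
    have hnpos : (0 : ℝ) < n := by exact_mod_cast (by omega : 0 < n)
    have hg : 0 < (M.growth n : ℝ) := lt_of_lt_of_le (by positivity) hn.1
    refine ⟨hg, ?_, ?_⟩
    · rw [WTA.ell, le_div_iff₀ hnpos]
      have := Real.log_le_log (by positivity) hn.1
      rw [Real.log_rpow two_pos] at this
      linarith
    · rw [WTA.ell, div_le_iff₀ hnpos]
      have := Real.log_le_log hg hn.2
      rw [Real.log_rpow two_pos] at this
      linarith
  have hbu : IsBoundedUnder (· ≤ ·) atTop M.ell :=
    ⟨c₂ * Real.log 2, Filter.eventually_map.mpr (hb.mono fun n hn => hn.2.2)⟩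
  have hbl : IsBoundedUnder (· ≥ ·) atTop M.ell :=
    ⟨c₁ * Real.log 2, Filter.eventually_map.mpr (hb.mono fun n hn => hn.2.1)⟩
  set L := limsup M.ell atTop with hL
  have hLpos : 0 < L := by
    have : c₁ * Real.log 2 ≤ L :=
      Filter.le_limsup_of_frequently_le (hb.mono fun n hn => hn.2.1).frequently hbu
    have h2 : 0 < c₁ * Real.log 2 := mul_pos hc₁ hlog2
    linarith
  have hup : ∀ ε > 0, ∀ᶠ n in atTop, M.ell n ≤ L + ε := fun ε hε =>
    (Filter.eventually_lt_of_limsup_lt (by linarith : limsup M.ell atTop < L + ε) hbu).mono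
      fun n hn => hn.le
  have hlow : ∀ ε > 0, ∃ᶠ n in atTop, L - ε < M.ell n := fun ε hε =>
    Filter.frequently_lt_of_lt_limsup hbl.isCoboundedUnder_le
      (by linarith : L - ε < limsup M.ell atTop)
  have htend : Tendsto M.ell atTop (𝓝 L) := by
    rw [Metric.tendsto_atTop']
    intro ε hε
    obtain ⟨N, hN⟩ := Filter.eventually_atTop.mp
      ((M.lower L hLpos hup hlow (ε / 2) (by linarith)).and (hup (ε / 2) (by linarith)))
    refine ⟨N, fun n hn => ?_⟩
    obtain ⟨h1, h2⟩ := hN n hn.le
    rw [Real.dist_eq, abs_lt]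
    constructor <;> linarith
  refine ⟨Real.exp L, Real.one_lt_exp_iff.mpr hLpos, ?_, ?_⟩
  · rw [Real.log_exp]
    exact htend
  · have h1 : Tendsto (fun n => Real.exp (M.ell n)) atTop (𝓝 (Real.exp L)) :=
      (Real.continuous_exp.tendsto L).comp htend
    refine h1.congr' ?_
    filter_upwards [hb] with n hn
    rw [WTA.ell, Real.rpow_def_of_pos hn.1]
    congr 1
    ring

end Pool.Agent.Results.MP_7772c6_lc.GrowthRateExists
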